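import Pool.Agent.W993.MC.Stm

set_option autoImplicit false

open Filter Topology

namespace Pool.Agent.W368.MC.CL

open Pool.Agent.W993.MC

theorem om_eq : omega = ((Real.cos (Real.pi / 3) : ℝ) : ℂ) + ((Real.sin (Real.pi / 3) : ℝ) : ℂ) * Complex.I := by
  unfold omega
  have : (Real.pi : ℂ) * Complex.I / 3 = ((Real.pi / 3 : ℝ) : ℂ) * Complex.I := by
    push_cast; ring
  rw [this, Complex.exp_mul_I, Complex.ofReal_cos, Complex.ofReal_sin]

theorem om_re : omega.re = 1 / 2 := by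
  rw [om_eq]; simp

theorem om_im : omega.im = Real.sqrt 3 / 2 := by
  rw [om_eq]; simp

theorem om_norm : ‖omega‖ = 1 := by
  have : omega = Complex.exp (((Real.pi / 3 : ℝ) : ℂ) * Complex.I) := by
    unfold omega; congr 1; push_cast; ring
  rw [this, Complex.norm_exp_ofReal_mul_I]

theorem om_pow_re (n : ℕ) : (omega ^ n).re = Real.cos (2 * Real.pi * n * (1 / 6)) := by
  have : omega ^ n = Complex.exp (((2 * Real.pi * n * (1 / 6) : ℝ) : ℂ) * Complex.I) := by
    unfold omega; rw [← Complex.exp_nat_mul]; congr 1; push_cast; ring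
  rw [this, Complex.exp_ofReal_mul_I_re]

theorem summ (w : ℕ) (hw : 2 ≤ w) : Summable (fun l : ℕ => (1 : ℝ) / ((l : ℝ) + 1) ^ w) := by
  have h := (summable_nat_add_iff 1).mpr (Real.summable_one_div_nat_pow.mpr (by omega : 1 < w))
  refine h.congr fun l => ?_
  push_cast; rfl

theorem hs (w : ℕ) (v : ℂ) (hw : 2 ≤ w) (h : Tendsto (S [(w, omega)]) atTop (𝓝 v)) :
    HasSum (fun l : ℕ => omega ^ (l + 1) / ((l : ℂ) + 1) ^ w) v := by
  have hn : ∀ l : ℕ, ‖omega ^ (l + 1) / ((l : ℂ) + 1) ^ w‖ = 1 / ((l : ℝ) + 1) ^ w := by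
    intro l
    rw [norm_div, norm_pow, norm_pow, om_norm, one_pow]
    have : ‖(l : ℂ) + 1‖ = (l : ℝ) + 1 := by
      have h2 : (l : ℂ) + 1 = ((l + 1 : ℕ) : ℂ) := by push_cast; rfl
      rw [h2, Complex.norm_natCast]; push_cast; rfl
    rw [this]
  have hsm : Summable (fun l : ℕ => omega ^ (l + 1) / ((l : ℂ) + 1) ^ w) :=
    Summable.of_norm ((summ w hw).congr fun l => (hn l).symm)
  have h1 : Tendsto (fun M => ∑ l ∈ Finset.range M, omega ^ (l + 1) / ((l : ℂ) + 1) ^ w) atTop (𝓝 v) := by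
    refine h.congr fun M => ?_
    simp [S]
  have h2 := hsm.hasSum.tendsto_sum_nat
  rw [tendsto_nhds_unique h1 h2]
  exact hsm.hasSum

/-- the tail of the sum of the inverse squares -/
theorem tail2 : HasSum (fun l : ℕ => (1 : ℝ) / ((l : ℝ) + 2) ^ 2) (Real.pi ^ 2 / 6 - 1) := by
  have h := (hasSum_nat_add_iff' (f := fun n : ℕ => (1 : ℝ) / (n : ℝ) ^ 2) 2).mpr hasSum_zeta_two
  have h3 : ∑ i ∈ Finset.range 2, (1 : ℝ) / (i : ℝ) ^ 2 = 1 := by
    simp [Finset.sum_range_succ]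
  rw [h3] at h
  refine h.congr_fun ?_ |> fun x => x
  intro l
  push_cast; rfl

theorem dist (w : ℕ) (v : ℂ) (hw : 2 ≤ w) (h : Tendsto (S [(w, omega)]) atTop (𝓝 v)) (c : ℝ)
    (hc : ∀ l : ℕ, (1 : ℝ) / ((l : ℝ) + 2) ^ w ≤ c * (1 / ((l : ℝ) + 2) ^ 2)) :
    ‖v - omega‖ ≤ c * (Real.pi ^ 2 / 6 - 1) := by
  have h0 := hs w v hw h
  have h1 := (hasSum_nat_add_iff' (f := fun l : ℕ => omega ^ (l + 1) / ((l : ℂ) + 1) ^ w) 1).mpr h0
  have h3 : ∑ i ∈ Finset.range 1, omega ^ (i + 1) / ((i : ℂ) + 1) ^ w = omega := by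
    simp
  rw [h3] at h1
  have h4 := tail2.mul_left c
  rw [← h1.tsum_eq]
  refine tsum_of_norm_bounded h4 fun l => ?_
  have h5 : ‖((l + 1 : ℕ) : ℂ) + 1‖ = (l : ℝ) + 2 := by
    have h2 : ((l + 1 : ℕ) : ℂ) + 1 = ((l + 2 : ℕ) : ℂ) := by push_cast; ring
    rw [h2, Complex.norm_natCast]; push_cast; rfl
  rw [norm_div, norm_pow, norm_pow, om_norm, one_pow, h5]
  exact hc l

theorem main : S_CL := by
  intro w v hw h
  have hpi : Real.pi ^ 2 < 10 := by
    have h1 := Real.pi_lt_d2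
    have h2 := Real.pi_pos
    nlinarith
  have h3 : (1.7 : ℝ) < Real.sqrt 3 := by
    rw [Real.lt_sqrt (by norm_num)]; norm_num
  have hD : ‖v - omega‖ ≤ 1 * (Real.pi ^ 2 / 6 - 1) := by
    refine dist w v hw h 1 fun l => ?_
    rw [one_mul]
    apply one_div_le_one_div_of_le (by positivity)
    apply pow_le_pow_right₀ _ hw
    have : (0 : ℝ) ≤ l := Nat.cast_nonneg l
    linarith
  constructor
  · rcases Nat.lt_or_ge 2 w with hw3 | hw2
    · have hE : ‖v - omega‖ ≤ (1 / 2) * (Real.pi ^ 2 / 6 - 1) := by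
        refine dist w v hw h (1 / 2) fun l => ?_
        have hl : (0 : ℝ) ≤ l := Nat.cast_nonneg l
        have h6 : (1 : ℝ) / 2 * (1 / ((l : ℝ) + 2) ^ 2) = 1 / (2 * ((l : ℝ) + 2) ^ 2) := by
          field_simp
        rw [h6]
        apply one_div_le_one_div_of_le (by positivity)
        have h7 : ((l : ℝ) + 2) ^ 3 ≤ ((l : ℝ) + 2) ^ w :=
          pow_le_pow_right₀ (by linarith) hw3
        have h8 : 2 * ((l : ℝ) + 2) ^ 2 ≤ ((l : ℝ) + 2) ^ 3 := by
          have : ((l : ℝ) + 2) ^ 3 = ((l : ℝ) + 2) * ((l : ℝ) + 2) ^ 2 := by ring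
          rw [this]
          apply mul_le_mul_of_nonneg_right _ (by positivity)
          linarith
        linarith
      have h1 := Complex.abs_re_le_norm (v - omega)
      rw [Complex.sub_re, om_re] at h1
      have h2 := (abs_le.mp (h1.trans hE)).1
      intro h9
      rw [h9] at h2
      linarith
    · have hw' : w = 2 := le_antisymm hw2 hw
      subst hw'
      have h0 := hs 2 v hw h
      have h1 := Complex.hasSum_re h0
      have h2 := hasSum_one_div_nat_pow_mul_cos (k := 1) one_ne_zero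
        (x := 1 / 6) ⟨by norm_num, by norm_num⟩
      have h4 := (hasSum_nat_add_iff' (f := fun n : ℕ => 1 / (n : ℝ) ^ (2 * 1) *
        Real.cos (2 * Real.pi * n * (1 / 6))) 1).mpr h2
      have h5 : (fun l : ℕ => (omega ^ (l + 1) / ((l : ℂ) + 1) ^ 2).re) =
          fun n : ℕ => 1 / ((n + 1 : ℕ) : ℝ) ^ (2 * 1) *
            Real.cos (2 * Real.pi * (n + 1 : ℕ) * (1 / 6)) := by
        funext l
        have h6 : ((l : ℂ) + 1) ^ 2 = (((l + 1 : ℕ) : ℝ) ^ 2 : ℝ) := by push_cast; rfl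
        rw [h6, Complex.div_ofReal_re, om_pow_re]
        ring
      rw [h5] at h1
      have h7 := h1.unique h4
      rw [h7]
      have h8 : (Polynomial.map (algebraMap ℚ ℝ) (Polynomial.bernoulli (2 * 1))).eval (1 / 6 : ℝ) = 1 / 36 := by
        simp only [mul_one, Polynomial.bernoulli, Finset.sum_range_succ, Finset.sum_range_zero]
        simp [bernoulli_eq_bernoulli'_of_ne_one, bernoulli_one]
        norm_num
      rw [h8]
      have := Real.pi_pos
      simp
  · have h1 := Complex.abs_im_le_norm (v - omega)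
    rw [Complex.sub_im, om_im] at h1
    have h2 := (abs_le.mp (h1.trans hD)).1
    intro h9
    rw [h9] at h2
    linarith

end Pool.Agent.W368.MC.CL
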